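import Pool.Agent.Q202.EDRP.Defs
import Mathlib.Topology.Constructions

/-!
# Isomorphism of automorphism groups as topological groups
-/

namespace Q202.AutFpt

open FirstOrder FirstOrder.Language Topology

/-- The topology of pointwise convergence on `Aut(M)`: the topology induced by the product topology
on `M → M`, with `M` discrete. -/
@[reducible] def autTop (L : Language.{0, 0}) (M : Type) [L.Structure M] :
    TopologicalSpace (M ≃[L] M) :=
  TopologicalSpace.induced (fun (g : M ≃[L] M) (x : M) => g x)
    (@Pi.topologicalSpace M (fun _ => M) (fun _ => ⊥))

/-- `Aut(M)` and `Aut(M')` are isomorphic as topological groups: there is a bijection compatible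
with composition which is a homeomorphism for the topologies of pointwise convergence. -/
def AutIso (L : Language.{0, 0}) (M : Type) [L.Structure M] (L' : Language.{0, 0}) (M' : Type)
    [L'.Structure M'] : Prop :=
  ∃ F : (M ≃[L] M) ≃ (M' ≃[L'] M'), (∀ g h : M ≃[L] M, F (g.comp h) = (F g).comp (F h)) ∧
    @Continuous _ _ (autTop L M) (autTop L' M') F ∧
    @Continuous _ _ (autTop L' M') (autTop L M) F.symm

/-- A Fraisse structure: a countably infinite ultrahomogeneous structure in a countable relational
language. -/
def IsFraisseStructure (L : Language.{0, 0}) (M : Type) [L.Structure M] : Prop :=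
  L.IsRelational ∧ Countable L.Symbols ∧ Countable M ∧ Infinite M ∧ L.IsUltrahomogeneous M

end Q202.AutFpt
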