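import Pool.Agent.Q202.EDRP.Defs
import Pool.Agent.Q202.EDRP.Lemmas
import Pool.Agent.Q202.AutFpt.Defs
import Pool.Agent.Q202.MinTop
import Mathlib.GroupTheory.GroupAction.Defs
import Mathlib.Algebra.Group.Action.Pi
import Mathlib.Algebra.Group.Subgroup.Actions
import Mathlib.Algebra.Group.Action.End
import Mathlib.Logic.Equiv.Finset

/-!
# A Fraisse structure with automorphism group `Sym(ℕ)` and without FPT
-/

namespace Q202.AutFpt.Bad

open FirstOrder FirstOrder.Language Q202.EDRP

/-- Points: natural numbers and finite sets of ordered pairs of natural numbers. -/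
abbrev Pts : Type := ℕ ⊕ Finset (ℕ × ℕ)

/-- The action of `Sym(ℕ)` on points. -/
def act : Equiv.Perm ℕ →* Equiv.Perm Pts where
  toFun g := _root_.Equiv.sumCongr g (_root_.Equiv.finsetCongr (_root_.Equiv.prodCongr g g))
  map_one' := by
    ext x
    rcases x with x | x
    · rfl
    · simp only [_root_.Equiv.sumCongr_apply, Sum.map_inr, _root_.Equiv.finsetCongr_apply,
        Equiv.Perm.coe_one, id_eq]
      congr 1
      ext ⟨a, b⟩
      simp only [Finset.mem_map_equiv, _root_.Equiv.prodCongr_symm, _root_.Equiv.prodCongr_apply,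
        Prod.map_apply]
      exact Iff.rfl
  map_mul' g h := by
    ext x
    rcases x with x | x
    · rfl
    · simp only [_root_.Equiv.sumCongr_apply, Sum.map_inr, _root_.Equiv.finsetCongr_apply,
        Equiv.Perm.mul_apply, Finset.map_map]
      rfl

theorem act_inl (g : Equiv.Perm ℕ) (a : ℕ) : act g (Sum.inl a) = Sum.inl (g a) := rfl

theorem act_inr (g : Equiv.Perm ℕ) (F : Finset (ℕ × ℕ)) :
    act g (Sum.inr F) = Sum.inr (F.map (_root_.Equiv.prodCongr g g).toEmbedding) := rfl

/-- The permutation group induced by `Sym(ℕ)`. -/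
def G : Subgroup (Equiv.Perm Pts) := act.range

/-- The orbit of a tuple. -/
def orb {n : ℕ} (x : Fin n → Pts) : Quotient (MulAction.orbitRel G (Fin n → Pts)) :=
  Quotient.mk _ x

theorem orb_eq_iff {n : ℕ} (x y : Fin n → Pts) :
    orb x = orb y ↔ ∃ g : Equiv.Perm ℕ, ∀ i, act g (y i) = x i := by
  unfold orb
  rw [Quotient.eq, MulAction.orbitRel_apply]
  constructor
  · rintro ⟨⟨_, ⟨g, rfl⟩⟩, hg⟩
    refine ⟨g, fun i => ?_⟩
    rw [← hg]; rfl
  · rintro ⟨g, h⟩
    exact ⟨⟨act g, ⟨g, rfl⟩⟩, funext h⟩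

/-- One ternary symbol. -/
inductive Tern : ℕ → Type
  | mem : Tern 3

instance (n : ℕ) : Countable (Tern n) :=
  ⟨⟨fun _ => 0, by rintro ⟨⟩ ⟨⟩ _; rfl⟩⟩

/-- The language: a symbol for each orbit on tuples, and one ternary symbol. -/
def Lg : Language.{0, 0} :=
  ⟨fun _ => Empty, fun n => Quotient (MulAction.orbitRel G (Fin n → Pts)) ⊕ Tern n⟩

instance : Lg.IsRelational := fun _ => inferInstanceAs (IsEmpty Empty)

instance : Countable Lg.Symbols := by
  have h1 : Countable (Σ n, Lg.Functions n) := by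
    have : ∀ n, Countable (Lg.Functions n) := fun n => inferInstanceAs (Countable Empty)
    infer_instance
  have h2 : Countable (Σ n, Lg.Relations n) := by
    have : ∀ n, Countable (Lg.Relations n) := fun n =>
      inferInstanceAs (Countable (Quotient (MulAction.orbitRel G (Fin n → Pts)) ⊕ Tern n))
    infer_instance
  exact inferInstanceAs (Countable ((Σ n, Lg.Functions n) ⊕ (Σ n, Lg.Relations n)))

/-- The pair `(a, b)` belongs to the finite set `F`. -/
def memRel (x y z : Pts) : Prop :=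
  ∃ a b F, x = Sum.inl a ∧ y = Sum.inl b ∧ z = Sum.inr F ∧ (a, b) ∈ F

theorem memRel_iff (a b : ℕ) (F : Finset (ℕ × ℕ)) :
    memRel (Sum.inl a) (Sum.inl b) (Sum.inr F) ↔ (a, b) ∈ F := by
  constructor
  · rintro ⟨a', b', F', h1, h2, h3, h4⟩
    cases h1; cases h2; cases h3
    exact h4
  · intro h
    exact ⟨a, b, F, rfl, rfl, rfl, h⟩

theorem memRel_act_of (g : Equiv.Perm ℕ) (x y z : Pts) (h : memRel x y z) :
    memRel (act g x) (act g y) (act g z) := by
  obtain ⟨a, b, F, rfl, rfl, rfl, h4⟩ := h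
  refine ⟨g a, g b, _, rfl, rfl, rfl, ?_⟩
  exact Finset.mem_map.2 ⟨(a, b), h4, rfl⟩

theorem memRel_act (g : Equiv.Perm ℕ) (x y z : Pts) :
    memRel (act g x) (act g y) (act g z) ↔ memRel x y z := by
  constructor
  · intro h
    have h1 := memRel_act_of g⁻¹ _ _ _ h
    have h2 : ∀ w, act g⁻¹ (act g w) = w := by
      intro w
      rw [map_inv]
      exact (act g).symm_apply_apply w
    rw [h2, h2, h2] at h1
    exact h1
  · exact memRel_act_of g x y z

/-- Interpretation of the symbols. -/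
def rel {n : ℕ} : Quotient (MulAction.orbitRel G (Fin n → Pts)) ⊕ Tern n → (Fin n → Pts) → Prop
  | Sum.inl r, x => orb x = r
  | Sum.inr Tern.mem, x => memRel (x 0) (x 1) (x 2)

instance str : Lg.Structure Pts where
  funMap := fun f => nomatch f
  RelMap := fun r x => rel r x

theorem rel_act (g : Equiv.Perm ℕ) {n : ℕ}
    (r : Quotient (MulAction.orbitRel G (Fin n → Pts)) ⊕ Tern n) (x : Fin n → Pts) :
    rel r (act g ∘ x) ↔ rel r x := by
  rcases r with r | r
  · change orb (act g ∘ x) = r ↔ orb x = r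
    have : orb (act g ∘ x) = orb x := (orb_eq_iff _ _).2 ⟨g, fun i => rfl⟩
    rw [this]
  · cases r
    exact memRel_act g _ _ _

/-- Elements of `Sym(ℕ)` as automorphisms. -/
def toAut (g : Equiv.Perm ℕ) : Pts ≃[Lg] Pts where
  toEquiv := act g
  map_fun' := fun f => nomatch f
  map_rel' := by
    intro n r x
    exact rel_act g r x

theorem toAut_apply (g : Equiv.Perm ℕ) (x : Pts) : toAut g x = act g x := rfl

theorem exists_extend (S : Lg.Substructure Pts) [Finite S] (f : S ↪[Lg] Pts) :
    ∃ g : Equiv.Perm ℕ, ∀ s : S, act g s = f s := by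
  obtain ⟨n, ⟨e⟩⟩ := Finite.exists_equiv_fin S
  have h2 : Structure.RelMap (L := Lg) (M := S)
      (Sum.inl (orb (fun i => ((e.symm i : S) : Pts))) : Lg.Relations n) (fun i => e.symm i) := by
    change rel (Sum.inl _) _
    rfl
  have h3 := (f.map_rel _ _).2 h2
  have h4 : orb (f ∘ fun i => e.symm i) = orb (fun i => ((e.symm i : S) : Pts)) := h3
  rw [orb_eq_iff] at h4
  obtain ⟨g, h⟩ := h4
  refine ⟨g, fun s => ?_⟩
  have := h (e s)
  simpa using this

theorem ultrahomogeneous : Lg.IsUltrahomogeneous Pts := by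
  intro S hS f
  have hfin : Finite S := by
    obtain ⟨t, ht⟩ := hS
    have h2 : ((Substructure.closure Lg (t : Set Pts) : Lg.Substructure Pts) : Set Pts)
        = (t : Set Pts) := by
      rw [Substructure.closure_eq_of_isRelational]
    rw [ht] at h2
    have h3 : (S : Set Pts).Finite := by rw [h2]; exact t.finite_toSet
    exact h3
  obtain ⟨g, h⟩ := exists_extend S f
  refine ⟨toAut g, ?_⟩
  ext s
  exact (h s).symm

theorem aut_local (h : Pts ≃[Lg] Pts) {n : ℕ} (x : Fin n → Pts) :
    ∃ g : Equiv.Perm ℕ, ∀ i, act g (x i) = h (x i) := by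
  have h1 : Structure.RelMap (L := Lg) (M := Pts) (Sum.inl (orb x) : Lg.Relations n) x := by
    change rel (Sum.inl _) _
    rfl
  have h2 := (h.map_rel _ _).2 h1
  have h3 : orb (h ∘ x) = orb x := h2
  rw [orb_eq_iff] at h3
  exact h3

/-- Every automorphism comes from `Sym(ℕ)`. -/
theorem exists_eq_toAut (h : Pts ≃[Lg] Pts) : ∃ g : Equiv.Perm ℕ, toAut g = h := by
  classical
  have h1 : ∀ (h : Pts ≃[Lg] Pts) (a : ℕ), ∃ b : ℕ, h (Sum.inl a) = Sum.inl b := by
    intro h a
    obtain ⟨g, hg⟩ := aut_local h ![Sum.inl a]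
    exact ⟨g a, (hg 0).symm⟩
  choose f hf using h1 h
  choose f' hf' using h1 h.symm
  let g : Equiv.Perm ℕ := ⟨f, f', fun a => by
      have : h.symm (h (Sum.inl a)) = Sum.inl a := h.symm_apply_apply _
      rw [hf, hf'] at this
      exact Sum.inl_injective this, fun a => by
      have : h (h.symm (Sum.inl a)) = Sum.inl a := h.apply_symm_apply _
      rw [hf', hf] at this
      exact Sum.inl_injective this⟩
  refine ⟨g, ?_⟩
  ext x
  rw [toAut_apply]
  rcases x with a | F
  · rw [act_inl, hf]; rfl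
  · -- the support of `F`
    let T : Finset ℕ := F.image Prod.fst ∪ F.image Prod.snd
    obtain ⟨n, ⟨e⟩⟩ := Finite.exists_equiv_fin T
    obtain ⟨g', hg'⟩ := aut_local h
      (Fin.cons (Sum.inr F) (fun i => Sum.inl ((e.symm i : T) : ℕ)) : Fin (n + 1) → Pts)
    have h0 := hg' 0
    rw [Fin.cons_zero] at h0
    rw [← h0, act_inr, act_inr]
    congr 1
    have hT : ∀ a ∈ T, g a = g' a := by
      intro a ha
      have h2 := hg' (e ⟨a, ha⟩).succ
      rw [Fin.cons_succ] at h2
      simp only [_root_.Equiv.symm_apply_apply] at h2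
      rw [act_inl, hf] at h2
      exact (Sum.inl_injective h2).symm
    rw [Finset.map_eq_image, Finset.map_eq_image]
    apply Finset.image_congr
    rintro ⟨a, b⟩ hab
    have ha : a ∈ T := Finset.mem_union_left _ (Finset.mem_image.2 ⟨_, hab, rfl⟩)
    have hb : b ∈ T := Finset.mem_union_right _ (Finset.mem_image.2 ⟨_, hab, rfl⟩)
    change (g a, g b) = (g' a, g' b)
    rw [hT a ha, hT b hb]

/-- The membership symbol. -/
def memSym : Lg.Relations 3 := Sum.inr Tern.mem

/-- The membership formula `(a, b) ∈ x`. -/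
def Emem (a b : ℕ) : Lg.Formula (Fin 1 ⊕ Pts) :=
  memSym.formula
    ![Term.var (Sum.inr (Sum.inl a)), Term.var (Sum.inr (Sum.inl b)), Term.var (Sum.inl 0)]

theorem realize_Emem (a b : ℕ) (x : Fin 1 → Pts) (j : Pts → Pts) :
    (Emem a b).Realize (Sum.elim x j) ↔ memRel (j (Sum.inl a)) (j (Sum.inl b)) (x 0) := by
  unfold Emem
  rw [Formula.realize_rel]
  rfl

/-- The flow of tournaments at infinity. -/
def X : Set (TypeOver Lg Pts 1) :=
  {p | ∀ c : ℕ × ℕ, c.1 ≠ c.2 → (Emem c.1 c.2 ∈ p.carrier ↔ (Emem c.2 c.1).not ∈ p.carrier)}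

/-- The type of a point of the structure. -/
def tpOf (m : Pts) : TypeOver Lg Pts 1 where
  carrier := {φ | φ.Realize (Sum.elim (fun _ => m) id)}
  complete := fun φ => by
    by_cases h : φ.Realize (Sum.elim (fun _ : Fin 1 => m) id)
    · exact Or.inl h
    · right
      change φ.not.Realize _
      rw [Formula.realize_not]
      exact h
  consistent := fun s hs => ⟨fun _ => m, fun φ hφ => hs hφ⟩

theorem X_subflow : IsSubflow Lg Pts 1 X := by
  classical
  have hX : X = ⋂ c : ℕ × ℕ, {p : TypeOver Lg Pts 1 | c.1 ≠ c.2 →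
      (Emem c.1 c.2 ∈ p.carrier ↔ (Emem c.2 c.1).not ∈ p.carrier)} := by
    ext p
    simp only [X, Set.mem_ofPred_eq, Set.mem_iInter]
  have hcl : ∀ c : ℕ × ℕ, IsClosed {p : TypeOver Lg Pts 1 | c.1 ≠ c.2 →
      (Emem c.1 c.2 ∈ p.carrier ↔ (Emem c.2 c.1).not ∈ p.carrier)} := by
    intro c
    by_cases hc : c.1 = c.2
    · simp [hc]
    · have : {p : TypeOver Lg Pts 1 | c.1 ≠ c.2 →
          (Emem c.1 c.2 ∈ p.carrier ↔ (Emem c.2 c.1).not ∈ p.carrier)} =
          {p : TypeOver Lg Pts 1 | (Emem c.1 c.2 ∈ p.carrier ↔ (Emem c.2 c.1).not ∈ p.carrier)} := by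
        ext p
        simp [hc]
      rw [this]
      exact (TypeOver.isClosed_iff_mem _ _).isClosed
  refine ⟨?_, ?_, ?_⟩
  · -- nonempty
    obtain ⟨p, _, hp⟩ := (isCompact_univ (X := TypeOver Lg Pts 1)).inter_iInter_nonempty _ hcl (by
      intro u
      refine ⟨tpOf (Sum.inr (((u.image Prod.fst ∪ u.image Prod.snd) ×ˢ
        (u.image Prod.fst ∪ u.image Prod.snd)).filter (fun c => c.1 < c.2))), trivial, ?_⟩
      simp only [Set.mem_iInter]
      rintro ⟨a, b⟩ hab hne
      simp only at hne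
      change (Emem a b).Realize (Sum.elim (fun _ => (Sum.inr _ : Pts)) id) ↔
        (Emem b a).not.Realize (Sum.elim (fun _ => (Sum.inr _ : Pts)) id)
      rw [Formula.realize_not, realize_Emem, realize_Emem]
      simp only [id_eq]
      rw [memRel_iff, memRel_iff, Finset.mem_filter, Finset.mem_filter, Finset.mem_product,
        Finset.mem_product]
      have ha : a ∈ u.image Prod.fst ∪ u.image Prod.snd :=
        Finset.mem_union_left _ (Finset.mem_image.2 ⟨_, hab, rfl⟩)
      have hb : b ∈ u.image Prod.fst ∪ u.image Prod.snd :=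
        Finset.mem_union_right _ (Finset.mem_image.2 ⟨_, hab, rfl⟩)
      simp only [ha, hb, true_and, and_true]
      omega)
    refine ⟨p, ?_⟩
    rw [hX]
    exact hp
  · rw [hX]
    exact isClosed_iInter hcl
  · -- invariance
    intro p hp h q hq
    rw [TypeOver.isTranslate_iff] at hq
    obtain ⟨g, rfl⟩ := exists_eq_toAut h
    have hmove : ∀ a b, TypeOver.moveBack (toAut g) (Emem a b) ∈ p.carrier ↔
        Emem (g⁻¹ a) (g⁻¹ b) ∈ p.carrier := by
      intro a b
      apply TypeOver.mem_congr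
      intro x
      have h1 := TypeOver.realize_moveBack (toAut g) (Emem a b) x (fun b => (toAut g).symm b)
      have h2 : (fun b : Pts => (toAut g).symm ((toAut g) b)) = id := by
        funext b
        simp
      rw [h2] at h1
      rw [h1, realize_Emem, realize_Emem]
      have h3 : ∀ a : ℕ, (toAut g).symm (Sum.inl a) = Sum.inl (g⁻¹ a) := by
        intro a
        apply (toAut g).injective
        rw [FirstOrder.Language.Equiv.apply_symm_apply, toAut_apply, act_inl]
        congr 1
        exact (g.apply_symm_apply a).symm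
      rw [h3, h3]
      rfl
    rintro ⟨a, b⟩ hab
    rw [hq]
    rw [TypeOver.not_mem_iff, TypeOver.mem_smul, TypeOver.mem_smul, hmove, hmove]
    have := hp (g⁻¹ a, g⁻¹ b) (by
      intro h
      exact hab (g⁻¹.injective h))
    rw [TypeOver.not_mem_iff] at this
    exact this

theorem not_fpt : ¬ FPT Lg Pts := by
  intro h
  obtain ⟨p, hp, hfix⟩ := h 1 le_rfl X X_subflow
  have h1 := hfix (toAut (Equiv.swap 0 1))
  rw [TypeOver.isTranslate_iff] at h1
  have h2 : Emem 0 1 ∈ p.carrier ↔ Emem 1 0 ∈ p.carrier := by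
    have h3 : Emem 0 1 ∈ p.carrier ↔ Emem 0 1 ∈ (TypeOver.smul (toAut (Equiv.swap 0 1)) p).carrier := by
      rw [← h1]
    rw [h3, TypeOver.mem_smul]
    apply TypeOver.mem_congr
    intro x
    have h1 := TypeOver.realize_moveBack (toAut (Equiv.swap 0 1)) (Emem 0 1) x
      (fun b => (toAut (Equiv.swap 0 1)).symm b)
    have h2 : (fun b : Pts => (toAut (Equiv.swap 0 1)).symm ((toAut (Equiv.swap 0 1)) b)) = id := by
      funext b
      simp
    rw [h2] at h1
    rw [h1, realize_Emem, realize_Emem]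
    have h3 : ∀ a b : ℕ, Equiv.swap 0 1 b = a →
        (toAut (Equiv.swap 0 1)).symm (Sum.inl a) = Sum.inl b := by
      intro a b hab
      apply (toAut (Equiv.swap 0 1)).injective
      rw [FirstOrder.Language.Equiv.apply_symm_apply, toAut_apply, act_inl, hab]
    rw [h3 0 1 (by simp), h3 1 0 (by simp)]
    rfl
  have h4 := hp (0, 1) (by simp)
  rw [TypeOver.not_mem_iff] at h4
  simp only at h4
  tauto

end Q202.AutFpt.Bad
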