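import Pool.Agent.Q202.EDRP.Defs
import Pool.Agent.Q202.EDRP.Lemmas
import Mathlib.GroupTheory.Perm.ViaEmbedding
import Mathlib.Logic.Equiv.Fintype

/-!
# The infinite set without structure has EDRP, hence FPT
-/

namespace Q202.AutFpt.Pure

open FirstOrder FirstOrder.Language Q202.EDRP

/-- In a finite set, two injective tuples are conjugate. -/
theorem exists_perm {α : Type*} [Finite α] {m : ℕ} (s t : Fin m → α) (hs : Function.Injective s)
    (ht : Function.Injective t) : ∃ σ : Equiv.Perm α, ∀ i, σ (s i) = t i := by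
  classical
  have := Fintype.ofFinite α
  let e : {x // x ∈ Set.range s} ≃ {x // x ∈ Set.range t} :=
    (_root_.Equiv.ofInjective s hs).symm.trans (_root_.Equiv.ofInjective t ht)
  refine ⟨e.extendSubtype, fun i => ?_⟩
  rw [_root_.Equiv.extendSubtype_apply_of_mem e (s i) ⟨i, rfl⟩]
  simp only [e, _root_.Equiv.trans_apply]
  have : (_root_.Equiv.ofInjective s hs).symm ⟨s i, ⟨i, rfl⟩⟩ = i := by
    rw [_root_.Equiv.symm_apply_eq]
    rfl
  rw [this]
  rfl

/-- Permutations are automorphisms in the empty language. -/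
def permAut {N : Type} [Language.empty.Structure N] (σ : _root_.Equiv.Perm N) :
    N ≃[Language.empty] N where
  toEquiv := σ
  map_fun' := fun f => isEmptyElim f
  map_rel' := fun r => isEmptyElim r

theorem edrp (M : Type) [Language.empty.Structure M] [Infinite M] :
    Q202.EDRP.EDRP Language.empty M := by
  classical
  rintro m A _ a ha ⟨fA⟩ B _ hB ⟨fB⟩ k hk χ ⟨N, _, j, r, e, φ, hφ⟩
  -- the finite set of points to avoid
  have hfin : {b : M | j b ∈ Set.range e}.Finite :=
    Set.Finite.preimage (j.injective.injOn) (Set.finite_range e)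
  have hinf : Infinite (({b : M | j b ∈ Set.range e}ᶜ : Set M) : Type) :=
    hfin.infinite_compl.to_subtype
  obtain ⟨emb⟩ : Nonempty (B ↪ (({b : M | j b ∈ Set.range e}ᶜ : Set M) : Type)) := by
    have := Fintype.ofFinite B
    obtain ⟨f⟩ := Function.Embedding.nonempty_of_card_le (α := B) (β := Fin (Fintype.card B))
      (by simp)
    exact ⟨f.trans ((Fin.valEmbedding).trans (Infinite.natEmbedding _))⟩
  let fB' : B ↪[Language.empty] M :=
    { toFun := fun b => (emb b : M)
      inj' := fun x y h => emb.injective (Subtype.ext h)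
      map_fun' := fun f => isEmptyElim f
      map_rel' := fun r => isEmptyElim r }
  refine ⟨fB'.toHom.range, ⟨fB'.equivRange⟩, ?_⟩
  have hB'fin : Finite fB'.toHom.range := Finite.of_equiv B fB'.equivRange.toEquiv
  have havoid : ∀ x : fB'.toHom.range, j (x : M) ∉ Set.range e := by
    rintro ⟨x, hx⟩
    rw [Hom.mem_range] at hx
    obtain ⟨b, rfl⟩ := hx
    exact (emb b).2
  -- any two tuples have the same colour
  have key : ∀ t t' : tupleCopies Language.empty a M,
      (∃ s ∈ tupleCopies Language.empty a fB'.toHom.range, t.1 = fun l => (s l : M)) →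
      (∃ s ∈ tupleCopies Language.empty a fB'.toHom.range, t'.1 = fun l => (s l : M)) →
      χ t = χ t' := by
    rintro t t' ⟨s, ⟨g, hs⟩, hst⟩ ⟨s', ⟨g', hs'⟩, hst'⟩
    have hsi : Function.Injective s := by
      rw [hs]; exact g.injective.comp ha.1
    have hsi' : Function.Injective s' := by
      rw [hs']; exact g'.injective.comp ha.1
    obtain ⟨σ, hσ⟩ := exists_perm s s' hsi hsi'
    let ι : fB'.toHom.range ↪ N := ⟨fun x => j (x : M), fun x y h => Subtype.ext (j.injective h)⟩
    let τ : N ≃[Language.empty] N := permAut (σ.viaEmbedding ι)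
    have h1 : ∀ i, χ t = i ↔ χ t' = i := by
      intro i
      rw [hφ, hφ]
      have h2 := τ.toElementaryEmbedding.map_formula (φ i) (Sum.elim e (fun l => j (t.1 l)))
      rw [← h2]
      have h3 : τ.toElementaryEmbedding ∘ (Sum.elim e (fun l => j (t.1 l))) =
          Sum.elim e (fun l => j (t'.1 l)) := by
        funext z
        rcases z with z | z
        · change (σ.viaEmbedding ι) (e z) = e z
          apply _root_.Equiv.Perm.viaEmbedding_apply_of_notMem
          rintro ⟨x, hx⟩
          exact havoid x ⟨z, hx.symm⟩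
        · change (σ.viaEmbedding ι) (j (t.1 z)) = j (t'.1 z)
          rw [hst, hst']
          change (σ.viaEmbedding ι) (ι (s z)) = ι (s' z)
          rw [_root_.Equiv.Perm.viaEmbedding_apply, hσ]
      rw [h3]
    exact ((h1 (χ t)).1 rfl).symm
  by_cases hex : ∃ t : tupleCopies Language.empty a M,
      (∃ s ∈ tupleCopies Language.empty a fB'.toHom.range, t.1 = fun l => (s l : M))
  · obtain ⟨t, ht⟩ := hex
    exact ⟨χ t, fun t' ht' => key t' t ht' ht⟩
  · exact ⟨⟨0, hk⟩, fun t ht => absurd ⟨t, ht⟩ hex⟩

theorem fpt (M : Type) [Language.empty.Structure M] [Countable M] [Infinite M] :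
    FPT Language.empty M :=
  fpt_of_edrp (Language.empty.isFraisseLimit_of_countable_infinite M).ultrahomogeneous (edrp M)

end Q202.AutFpt.Pure
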