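import Pool.Agent.Q202.AutFpt.Bad
import Pool.Agent.Q202.AutFpt.Pure

namespace Q202.AutFpt

open FirstOrder FirstOrder.Language Topology

/-- The pure set `ℕ`. -/
instance pureStr : Language.empty.Structure ℕ := Language.emptyStructure

/-- The comparison map. -/
def cmp (g : ℕ ≃[Language.empty] ℕ) : Bad.Pts ≃[Bad.Lg] Bad.Pts := Bad.toAut g.toEquiv

theorem cmp_inl (g : ℕ ≃[Language.empty] ℕ) (a : ℕ) : cmp g (Sum.inl a) = Sum.inl (g a) := rfl

theorem cmp_bijective : Function.Bijective cmp := by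
  constructor
  · intro g h hgh
    ext a
    have h1 : cmp g (Sum.inl a) = cmp h (Sum.inl a) := by rw [hgh]
    rw [cmp_inl, cmp_inl] at h1
    exact Sum.inl_injective h1
  · intro h
    obtain ⟨g, hg⟩ := Bad.exists_eq_toAut h
    exact ⟨Pure.permAut g, hg⟩

/-- The comparison isomorphism. -/
noncomputable def cmpEquiv : (ℕ ≃[Language.empty] ℕ) ≃ (Bad.Pts ≃[Bad.Lg] Bad.Pts) :=
  _root_.Equiv.ofBijective cmp cmp_bijective

theorem mem_nhds_autTop {L : Language.{0, 0}} {M : Type} [L.Structure M] (g : M ≃[L] M)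
    (U : Set (M ≃[L] M)) : U ∈ @nhds _ (autTop L M) g ↔
      ∃ F : Finset M, ∀ h : M ≃[L] M, (∀ a ∈ F, h a = g a) → h ∈ U :=
  Q202.MinTop.mem_nhds_pw (S := M ≃[L] M) (fun g => (g : M → M)) g U

theorem autIso : AutIso Language.empty ℕ Bad.Lg Bad.Pts := by
  classical
  refine ⟨cmpEquiv, ?_, ?_, ?_⟩
  · intro g h
    apply FirstOrder.Language.Equiv.ext
    intro x
    change Bad.act ((g.comp h).toEquiv) x = Bad.act g.toEquiv (Bad.act h.toEquiv x)
    have : ((g.comp h).toEquiv : Equiv.Perm ℕ) = (g.toEquiv : Equiv.Perm ℕ) * h.toEquiv := rfl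
    rw [this, map_mul]
    rfl
  · let _ : TopologicalSpace (ℕ ≃[Language.empty] ℕ) := autTop _ _
    let _ : TopologicalSpace (Bad.Pts ≃[Bad.Lg] Bad.Pts) := autTop _ _
    rw [continuous_iff_continuousAt]
    intro g U hU
    obtain ⟨S, hS⟩ := (mem_nhds_autTop _ _).1 hU
    refine (mem_nhds_autTop _ _).2 ⟨S.biUnion (fun x => Sum.elim (fun a => {a})
      (fun F : Finset (ℕ × ℕ) => F.image Prod.fst ∪ F.image Prod.snd) x), fun h hh => ?_⟩
    refine hS _ (fun x hx => ?_)
    rcases x with a | F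
    · have h1 : h a = g a := hh a (Finset.mem_biUnion.2 ⟨_, hx, by simp⟩)
      change Sum.inl (h a) = (Sum.inl (g a) : Bad.Pts)
      rw [h1]
    · change Bad.act h.toEquiv (Sum.inr F) = Bad.act g.toEquiv (Sum.inr F)
      rw [Bad.act_inr, Bad.act_inr, Finset.map_eq_image, Finset.map_eq_image]
      congr 1
      apply Finset.image_congr
      rintro ⟨a, b⟩ hab
      have ha : h a = g a := hh a (Finset.mem_biUnion.2 ⟨_, hx,
        Finset.mem_union_left _ (Finset.mem_image.2 ⟨_, hab, rfl⟩)⟩)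
      have hb : h b = g b := hh b (Finset.mem_biUnion.2 ⟨_, hx,
        Finset.mem_union_right _ (Finset.mem_image.2 ⟨_, hab, rfl⟩)⟩)
      change (h a, h b) = (g a, g b)
      rw [ha, hb]
  · let _ : TopologicalSpace (ℕ ≃[Language.empty] ℕ) := autTop _ _
    let _ : TopologicalSpace (Bad.Pts ≃[Bad.Lg] Bad.Pts) := autTop _ _
    rw [continuous_iff_continuousAt]
    intro g U hU
    obtain ⟨S, hS⟩ := (mem_nhds_autTop _ _).1 hU
    refine (mem_nhds_autTop _ _).2 ⟨S.image Sum.inl, fun h hh => ?_⟩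
    refine hS _ (fun a ha => ?_)
    have h1 := hh (Sum.inl a) (Finset.mem_image_of_mem _ ha)
    have h2 : h (Sum.inl a) = Sum.inl (cmpEquiv.symm h a) := by
      conv_lhs => rw [← cmpEquiv.apply_symm_apply h]
      rfl
    have h3 : g (Sum.inl a) = Sum.inl (cmpEquiv.symm g a) := by
      conv_lhs => rw [← cmpEquiv.apply_symm_apply g]
      rfl
    rw [h2, h3] at h1
    exact Sum.inl_injective h1

end Q202.AutFpt
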